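import Pool.Agent.W92.ET.Base

/-! Subtask ET-EE (13874/13875) of project ET (owner helper92): the value of `EE`. -/

set_option autoImplicit false

open MeasureTheory Set Filter Topology

namespace Pool.Agent.W138.ET

open Pool.Agent.W92.ET

noncomputable section

theorem inner_deriv (c : ℝ) (hc : 0 < c) (τ : ℝ) :
    HasDerivAt (fun τ => Real.arctan (√c * Real.sinh τ) / √c)
      (Real.cosh τ / (1 + c * Real.sinh τ ^ 2)) τ := by
  have h1 : HasDerivAt (fun τ => √c * Real.sinh τ) (√c * Real.cosh τ) τ :=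
    (Real.hasDerivAt_sinh τ).const_mul _
  have h2 := h1.arctan.div_const (√c)
  refine h2.congr_deriv ?_
  have h3 : √c ≠ 0 := (Real.sqrt_pos.2 hc).ne'
  have h4 : √c ^ 2 = c := Real.sq_sqrt hc.le
  rw [mul_pow, h4]
  field_simp

theorem tendsto_sinh : Tendsto Real.sinh atTop atTop :=
  tendsto_atTop_mono' atTop ((eventually_ge_atTop 0).mono fun _ hx => Real.self_le_sinh_iff.2 hx)
    tendsto_id

theorem inner_int (c : ℝ) (hc : 0 < c) :
    IntegrableOn (fun τ => Real.cosh τ / (1 + c * Real.sinh τ ^ 2)) (Ioi 0) ∧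
    ∫ τ in Ioi (0:ℝ), Real.cosh τ / (1 + c * Real.sinh τ ^ 2) = Real.pi / 2 / √c := by
  have hcont : ContinuousWithinAt (fun τ => Real.arctan (√c * Real.sinh τ) / √c) (Ici 0) 0 :=
    (inner_deriv c hc 0).continuousAt.continuousWithinAt
  have hpos : ∀ x ∈ Ioi (0:ℝ), 0 ≤ Real.cosh x / (1 + c * Real.sinh x ^ 2) := by
    intro x _
    have := Real.cosh_pos x
    positivity
  have hlim : Tendsto (fun τ => Real.arctan (√c * Real.sinh τ) / √c) atTop
      (𝓝 (Real.pi / 2 / √c)) := by
    apply Tendsto.div_const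
    have : Tendsto (fun τ => √c * Real.sinh τ) atTop atTop :=
      Tendsto.const_mul_atTop (Real.sqrt_pos.2 hc) tendsto_sinh
    exact (Real.tendsto_arctan_atTop.mono_right nhdsWithin_le_nhds).comp this
  refine ⟨integrableOn_Ioi_deriv_of_nonneg hcont (fun x _ => inner_deriv c hc x) hpos hlim, ?_⟩
  rw [integral_Ioi_of_hasDerivAt_of_nonneg hcont (fun x _ => inner_deriv c hc x) hpos hlim]
  simp

/-- the integrand -/
def g (τ s : ℝ) : ℝ := PP (s ^ 2) * (Real.cosh τ / (1 + (1 - s ^ 2) * Real.sinh τ ^ 2))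

theorem PP_cont : Continuous PP := by
  unfold PP
  fun_prop

theorem HH_eq (h : S_HH) (τ : ℝ) (hτ : 0 < τ) :
    HH (Real.cosh τ) = ∫ s in Ioo (0:ℝ) 1, g τ s := by
  have hy : 1 < Real.cosh τ := Real.one_lt_cosh.2 hτ.ne'
  obtain ⟨-, h2⟩ := h (Real.cosh τ) hy
  have hy0 : Real.cosh τ ≠ 0 := by positivity
  have h3 : HH (Real.cosh τ) = (1 / Real.cosh τ) *
      ∫ s in (0 : ℝ)..1, PP (s ^ 2) / (1 - (1 - 1 / Real.cosh τ ^ 2) * s ^ 2) := by
    rw [← h2]; field_simp
  rw [h3, ← intervalIntegral.integral_const_mul, intervalIntegral.integral_of_le zero_le_one,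
    integral_Ioc_eq_integral_Ioo]
  apply setIntegral_congr_fun measurableSet_Ioo
  intro s hs
  have hs2 : s ^ 2 < 1 := by
    have := hs.1; have := hs.2
    nlinarith
  have e1 : Real.cosh τ ^ 2 = 1 + Real.sinh τ ^ 2 := by rw [Real.cosh_sq]; ring
  have p1 : 0 < 1 + (1 - s ^ 2) * Real.sinh τ ^ 2 := by
    have : 0 < 1 - s ^ 2 := by linarith
    positivity
  have e2 : 1 - (1 - 1 / Real.cosh τ ^ 2) * s ^ 2 =
      (1 + (1 - s ^ 2) * Real.sinh τ ^ 2) / Real.cosh τ ^ 2 := by
    rw [eq_div_iff (by positivity)]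
    have : (1 - (1 - 1 / Real.cosh τ ^ 2) * s ^ 2) * Real.cosh τ ^ 2 =
        Real.cosh τ ^ 2 - (Real.cosh τ ^ 2 - 1) * s ^ 2 := by
      field_simp
    rw [this, e1]; ring
  simp only [g]
  rw [e2]
  field_simp

theorem g_meas : Measurable (Function.uncurry g) := by
  unfold g Function.uncurry
  have h1 : Measurable (fun p : ℝ × ℝ => PP (p.2 ^ 2)) :=
    (PP_cont.comp (by fun_prop)).measurable
  have h2 : Measurable (fun p : ℝ × ℝ => Real.cosh p.1) :=
    (Real.continuous_cosh.comp continuous_fst).measurable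
  have h3 : Measurable (fun p : ℝ × ℝ => 1 + (1 - p.2 ^ 2) * Real.sinh p.1 ^ 2) := by
    have : Continuous (fun p : ℝ × ℝ => 1 + (1 - p.2 ^ 2) * Real.sinh p.1 ^ 2) := by
      have := Real.continuous_sinh.comp (continuous_fst (X := ℝ) (Y := ℝ))
      simp only [Function.comp_def] at this
      fun_prop
    exact this.measurable
  exact h1.mul (h2.div h3)

theorem c_pos {s : ℝ} (hs : s ∈ Ioo (0:ℝ) 1) : 0 < 1 - s ^ 2 := by
  have := hs.1; have := hs.2
  nlinarith

theorem arcs_int : IntegrableOn (fun s : ℝ => 1 / √(1 - s ^ 2)) (Ioo 0 1) := by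
  have h1 : IntegrableOn (fun s : ℝ => 1 / √(1 - s ^ 2)) (Ioc 0 1) := by
    apply intervalIntegral.integrableOn_deriv_of_nonneg (g := Real.arcsin)
    · exact Real.continuous_arcsin.continuousOn
    · intro x hx
      exact Real.hasDerivAt_arcsin (by have := hx.1; linarith) (by have := hx.2; exact this.ne)
    · intro x _
      positivity
  exact h1.mono_set Ioo_subset_Ioc_self

theorem outer_int : IntegrableOn (fun s : ℝ => PP (s ^ 2) * (Real.pi / 2 / √(1 - s ^ 2)))
    (Ioo 0 1) := by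
  obtain ⟨C, hC⟩ := (isCompact_Icc (a := (0:ℝ)) (b := 1)).exists_bound_of_continuousOn
    (f := fun s : ℝ => PP (s ^ 2) * (Real.pi / 2))
    ((PP_cont.comp (by fun_prop)).mul continuous_const).continuousOn
  have h1 : IntegrableOn (fun s : ℝ => (PP (s ^ 2) * (Real.pi / 2)) * (1 / √(1 - s ^ 2)))
      (Ioo 0 1) := by
    apply Integrable.bdd_mul (c := C) arcs_int
    · exact (((PP_cont.comp (by fun_prop)).mul continuous_const).measurable).aestronglyMeasurable
    · rw [ae_restrict_iff' measurableSet_Ioo]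
      exact Eventually.of_forall fun s hs => hC s (Ioo_subset_Icc_self hs)
  refine h1.congr (Eventually.of_forall fun s => ?_)
  simp only
  ring

theorem g_int : Integrable (Function.uncurry g)
    ((volume.restrict (Ioi (0:ℝ))).prod (volume.restrict (Ioo (0:ℝ) 1))) := by
  rw [integrable_prod_iff' g_meas.aestronglyMeasurable]
  constructor
  · rw [ae_restrict_iff' measurableSet_Ioo]
    refine Eventually.of_forall fun s hs => ?_
    change Integrable (fun τ => PP (s ^ 2) *
      (Real.cosh τ / (1 + (1 - s ^ 2) * Real.sinh τ ^ 2))) (volume.restrict (Ioi 0))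
    exact (inner_int _ (c_pos hs)).1.const_mul _
  · have h1 := outer_int.norm
    refine h1.congr ?_
    rw [EventuallyEq, ae_restrict_iff' measurableSet_Ioo]
    refine Eventually.of_forall fun s hs => ?_
    have hc := c_pos hs
    simp only [Function.uncurry_apply_pair, g, norm_mul]
    rw [integral_const_mul]
    congr 1
    rw [← (inner_int _ hc).2, Real.norm_eq_abs, abs_of_nonneg]
    · apply setIntegral_congr_fun measurableSet_Ioi
      intro τ _
      simp only
      rw [Real.norm_eq_abs, abs_of_nonneg]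
      have := Real.cosh_pos τ
      positivity
    · apply setIntegral_nonneg measurableSet_Ioi
      intro τ _
      have := Real.cosh_pos τ
      positivity

/-- auxiliary polynomial -/
def Q (s : ℝ) : ℝ := 209309 / 307200 * s - 275489 / 153600 * s ^ 3 + 14167 / 7680 * s ^ 5
  - 847 / 1280 * s ^ 7 + 21 / 160 * s ^ 9

theorem last_int : ∫ s in Ioo (0:ℝ) 1, PP (s ^ 2) * (Real.pi / 2 / √(1 - s ^ 2)) =
    Real.pi ^ 2 * (306589 / 1228800) := by
  rw [← integral_Ioc_eq_integral_Ioo, ← intervalIntegral.integral_of_le zero_le_one]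
  have hint : IntervalIntegrable (fun s : ℝ => PP (s ^ 2) * (Real.pi / 2 / √(1 - s ^ 2)))
      volume 0 1 := by
    rw [intervalIntegrable_iff_integrableOn_Ioo_of_le zero_le_one]
    exact outer_int
  have hcont : ContinuousOn (fun s : ℝ => Real.pi / 2 *
      (306589 / 307200 * Real.arcsin s - √(1 - s ^ 2) * Q s)) (Icc 0 1) := by
    have h1 : Continuous Real.arcsin := Real.continuous_arcsin
    have h2 : Continuous Q := by unfold Q; fun_prop
    have h3 : Continuous (fun s : ℝ => √(1 - s ^ 2)) := by fun_prop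
    exact (continuous_const.mul ((continuous_const.mul h1).sub (h3.mul h2))).continuousOn
  rw [intervalIntegral.integral_eq_sub_of_hasDerivAt_of_le zero_le_one hcont ?_ hint]
  · simp [Q]
    ring
  · intro s hs
    have hc := c_pos hs
    have hr : 0 < √(1 - s ^ 2) := Real.sqrt_pos.2 hc
    have hr2 : √(1 - s ^ 2) ^ 2 = 1 - s ^ 2 := Real.sq_sqrt hc.le
    have d1 : HasDerivAt Real.arcsin (1 / √(1 - s ^ 2)) s :=
      Real.hasDerivAt_arcsin (by have := hs.1; linarith) (by have := hs.2; exact this.ne)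
    have d2 : HasDerivAt (fun s : ℝ => √(1 - s ^ 2)) ((-(2 * s)) / (2 * √(1 - s ^ 2))) s := by
      have : HasDerivAt (fun s : ℝ => 1 - s ^ 2) (-(2 * s)) s := by
        simpa using ((hasDerivAt_pow 2 s).const_sub 1)
      exact this.sqrt hc.ne'
    have d3 : HasDerivAt Q (209309 / 307200 - 275489 / 153600 * (3 * s ^ 2)
        + 14167 / 7680 * (5 * s ^ 4) - 847 / 1280 * (7 * s ^ 6) + 21 / 160 * (9 * s ^ 8)) s := by
      unfold Q
      have a1 := (hasDerivAt_id s).const_mul (209309 / 307200 : ℝ)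
      have a3 := (hasDerivAt_pow 3 s).const_mul (275489 / 153600 : ℝ)
      have a5 := (hasDerivAt_pow 5 s).const_mul (14167 / 7680 : ℝ)
      have a7 := (hasDerivAt_pow 7 s).const_mul (847 / 1280 : ℝ)
      have a9 := (hasDerivAt_pow 9 s).const_mul (21 / 160 : ℝ)
      have := (((a1.sub a3).add a5).sub a7).add a9
      refine this.congr_deriv ?_
      norm_num
    have d4 := (((d1.const_mul (306589 / 307200 : ℝ)).sub (d2.mul d3)).const_mul (Real.pi / 2))
    refine d4.congr_deriv ?_
    have e : (306589 / 307200 * (1 / √(1 - s ^ 2)) - (-(2 * s) / (2 * √(1 - s ^ 2)) * Q s +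
        √(1 - s ^ 2) * (209309 / 307200 - 275489 / 153600 * (3 * s ^ 2)
        + 14167 / 7680 * (5 * s ^ 4) - 847 / 1280 * (7 * s ^ 6) + 21 / 160 * (9 * s ^ 8)))) =
        (306589 / 307200 + s * Q s - √(1 - s ^ 2) ^ 2 * (209309 / 307200
        - 275489 / 153600 * (3 * s ^ 2)
        + 14167 / 7680 * (5 * s ^ 4) - 847 / 1280 * (7 * s ^ 6) + 21 / 160 * (9 * s ^ 8))) /
        √(1 - s ^ 2) := by
      field_simp
      ring
    rw [e, hr2]
    have e2 : (306589 / 307200 + s * Q s - (1 - s ^ 2) * (209309 / 307200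
        - 275489 / 153600 * (3 * s ^ 2)
        + 14167 / 7680 * (5 * s ^ 4) - 847 / 1280 * (7 * s ^ 6) + 21 / 160 * (9 * s ^ 8))) =
        PP (s ^ 2) := by
      unfold Q PP
      ring
    rw [e2]
    ring

theorem ee (h : S_HH) : S_EE := by
  unfold S_EE EE
  have h1 : ∫ τ in Ioi (0 : ℝ), HH (Real.cosh τ) = ∫ τ in Ioi (0 : ℝ), ∫ s in Ioo (0:ℝ) 1, g τ s :=
    setIntegral_congr_fun measurableSet_Ioi fun τ hτ => HH_eq h τ hτ
  rw [h1, integral_integral_swap g_int, ← last_int]
  apply setIntegral_congr_fun measurableSet_Ioo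
  intro s hs
  simp only [g]
  rw [integral_const_mul, (inner_int _ (c_pos hs)).2]

end

end Pool.Agent.W138.ET
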